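import Pool.Agent.H3.Homoth

set_option autoImplicit false

namespace Pool.Agent.Results.MP_9322ca_co.Order
open Finset Pool.Agent.H3.Homoth

/-- `A` and `B` are homothetic: some map `x ↦ l * x + t` with `l > 0` carries `A` onto `B`. -/
def Homothetic (A B : Finset ℝ) : Prop := ∃ l t : ℝ, 0 < l ∧ A.image (fun x => l * x + t) = B

/-- `c_k(X)`: the number of homothety classes that contain a `k`-element subset of `X`. -/
noncomputable def classes (k : ℕ) (X : Finset ℝ) : ℕ :=
  Set.ncard {C : Set (Finset ℝ) | ∃ A : Finset ℝ, A ⊆ X ∧ A.card = k ∧ C = {B | Homothetic A B}}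

/-- `f_k(n)`: the least value of `c_k(X)` over `n`-element sets `X` of reals. -/
noncomputable def f (k n : ℕ) : ℕ := sInf {m | ∃ X : Finset ℝ, X.card = n ∧ classes k X = m}

theorem hrefl (A : Finset ℝ) : Homothetic A A := ⟨1, 0, one_pos, by simp⟩

theorem htrans {A B C : Finset ℝ} (h1 : Homothetic A B) (h2 : Homothetic B C) : Homothetic A C := by
  obtain ⟨l, t, hl, rfl⟩ := h1
  obtain ⟨l', t', hl', rfl⟩ := h2
  refine ⟨l' * l, l' * t + t', by positivity, ?_⟩
  rw [image_image]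
  congr 1
  ext x
  simp only [Function.comp]
  ring

theorem hsymm {A B : Finset ℝ} (h1 : Homothetic A B) : Homothetic B A := by
  obtain ⟨l, t, hl, rfl⟩ := h1
  refine ⟨l⁻¹, -(l⁻¹ * t), by positivity, ?_⟩
  rw [image_image]
  conv_rhs => rw [← image_id (s := A)]
  congr 1
  ext x
  simp only [Function.comp, id]
  field_simp
  ring

open Classical in
theorem classes_eq (k : ℕ) (X : Finset ℝ) :
    classes k X = ((X.powersetCard k).image (fun A => {B | Homothetic A B})).card := by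
  rw [classes, ← Set.ncard_coe_finset]
  congr 1
  ext C
  simp only [Set.mem_ofPred_eq, coe_image, Set.mem_image, mem_coe, mem_powersetCard]
  constructor
  · rintro ⟨A, h1, h2, rfl⟩
    exact ⟨A, ⟨h1, h2⟩, rfl⟩
  · rintro ⟨A, ⟨h1, h2⟩, rfl⟩
    exact ⟨A, h1, h2, rfl⟩

theorem cs {α β : Type*} [DecidableEq β] (P : Finset α) (c : α → β) :
    (P.card : ℝ) ^ 2 ≤ (P.image c).card * (((P ×ˢ P).filter (fun p => c p.1 = c p.2)).card : ℝ) := by
  have h1 : (P.card : ℝ) = ∑ b ∈ P.image c, ((P.filter (fun a => c a = b)).card : ℝ) := by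
    exact_mod_cast card_eq_sum_card_image c P
  have h2 : (((P ×ˢ P).filter (fun p => c p.1 = c p.2)).card : ℝ) = ∑ b ∈ P.image c, ((P.filter (fun a => c a = b)).card : ℝ) ^ 2 := by
    have := card_eq_sum_card_fiberwise (f := fun p : α × α => c p.1) (s := (P ×ˢ P).filter (fun p => c p.1 = c p.2))
      (t := P.image c) (fun p hp => mem_coe.2 (mem_image_of_mem c (mem_product.1 (mem_filter.1 (mem_coe.1 hp)).1).1))
    rw [this]
    push_cast
    refine sum_congr rfl fun b _ => ?_
    rw [sq, ← Nat.cast_mul, ← card_product]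
    congr 2
    ext p
    simp only [mem_filter, mem_product]
    constructor
    · rintro ⟨⟨⟨a1, a2⟩, a3⟩, a4⟩
      exact ⟨⟨a1, a4⟩, a2, a3 ▸ a4⟩
    · rintro ⟨⟨a1, a4⟩, a2, a3⟩
      exact ⟨⟨⟨a1, a2⟩, a4.trans a3.symm⟩, a4⟩
  rw [h1, h2]
  exact sq_sum_le_card_mul_sum_sq

theorem lower (k : ℕ) (hk : 4 ≤ k) (X : Finset ℝ) (hX : 0 < X.card) :
    (X.card.choose k : ℝ) ^ 2 ≤ classes k X * (128 * (X.card : ℝ) ^ (k + 1)) := by
  classical
  have hn : (0 : ℝ) < X.card := by exact_mod_cast hX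
  have h1 := cs (X.powersetCard k) (fun A => {B | Homothetic A B})
  rw [← classes_eq, card_powersetCard] at h1
  refine h1.trans (mul_le_mul_of_nonneg_left ?_ (Nat.cast_nonneg _))
  set E := ((X.powersetCard k) ×ˢ (X.powersetCard k)).filter
    (fun p => {B | Homothetic p.1 B} = {B | Homothetic p.2 B}) with hE
  have ex : ∀ p : Finset ℝ × Finset ℝ, ∃ m : ℝ × ℝ, p ∈ E → 0 < m.1 ∧ p.1.image (fun x => m.1 * x + m.2) = p.2 := by
    intro p
    by_cases hp : p ∈ E
    · have h := (mem_filter.1 hp).2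
      have : p.2 ∈ {B | Homothetic p.1 B} := by rw [h]; exact hrefl _
      obtain ⟨l, t, h1, h2⟩ := this
      exact ⟨(l, t), fun _ => ⟨h1, h2⟩⟩
    · exact ⟨0, fun h => absurd h hp⟩
  choose m hm using ex
  have sub : ∀ p ∈ E, p.1 ∈ (DD X (m p)).powersetCard k := by
    intro p hp
    have h := mem_product.1 (mem_filter.1 hp).1
    rw [mem_powersetCard, mem_powersetCard] at h
    refine mem_powersetCard.2 ⟨fun x hx => mem_filter.2 ⟨h.1.1 hx, h.2.1 ?_⟩, h.1.2⟩
    rw [← (hm p hp).2]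
    exact mem_image_of_mem _ hx
  have hL : ∀ q ∈ E.image m, 0 < q.1 ∧ 2 ≤ (DD X q).card := by
    intro q hq
    obtain ⟨p, hp, rfl⟩ := mem_image.1 hq
    have := mem_powersetCard.1 (sub p hp)
    have := card_le_card this.1
    exact ⟨(hm p hp).1, by omega⟩
  have h2 := lines X hX _ hL
  have h3 : (E.card : ℝ) = ∑ q ∈ E.image m, ((E.filter (fun p => m p = q)).card : ℝ) := by
    exact_mod_cast card_eq_sum_card_image m E
  have h4 : ∀ q ∈ E.image m, ((E.filter (fun p => m p = q)).card : ℝ) ≤ (X.card : ℝ) ^ (k - 4) * ((DD X q).card : ℝ) ^ 4 := by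
    intro q _
    have a1 : (E.filter (fun p => m p = q)).card ≤ ((DD X q).powersetCard k).card := by
      refine card_le_card_of_injOn (fun p => p.1) (fun p hp => ?_) (fun p hp p' hp' h => ?_)
      · have := mem_filter.1 (mem_coe.1 hp)
        exact mem_coe.2 (this.2 ▸ sub p this.1)
      · have b1 := mem_filter.1 (mem_coe.1 hp)
        have b2 := mem_filter.1 (mem_coe.1 hp')
        have c1 := (hm p b1.1).2
        have c2 := (hm p' b2.1).2
        rw [b1.2] at c1
        rw [b2.2] at c2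
        have h' : p.1 = p'.1 := h
        exact Prod.ext h' (by rw [← c1, ← c2, h'])
    rw [card_powersetCard] at a1
    have a2 := a1.trans (Nat.choose_le_pow _ _)
    have a3 : (DD X q).card ≤ X.card := card_filter_le _ _
    have a4 : (DD X q).card ^ k ≤ X.card ^ (k - 4) * (DD X q).card ^ 4 := by
      conv_lhs => rw [show k = (k - 4) + 4 by omega, pow_add]
      exact Nat.mul_le_mul_right _ (Nat.pow_le_pow_left a3 _)
    exact_mod_cast a2.trans a4
  rw [h3]
  calc _ ≤ ∑ q ∈ E.image m, (X.card : ℝ) ^ (k - 4) * ((DD X q).card : ℝ) ^ 4 := sum_le_sum h4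
    _ = (X.card : ℝ) ^ (k - 4) * ∑ q ∈ E.image m, ((DD X q).card : ℝ) ^ 4 := by rw [mul_sum]
    _ ≤ (X.card : ℝ) ^ (k - 4) * (128 * (X.card : ℝ) ^ 5) := mul_le_mul_of_nonneg_left h2 (by positivity)
    _ = _ := by
      rw [show k + 1 = (k - 4) + 5 by omega, pow_add]
      ring

theorem upper (k n : ℕ) (hk : 1 ≤ k) : classes k ((range n).image (fun i : ℕ => (i : ℝ))) ≤ n ^ (k - 1) := by
  classical
  rw [classes_eq]
  have : (((range n).image (fun i : ℕ => (i : ℝ))).powersetCard k).image (fun A => {B | Homothetic A B}) ⊆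
      (((range n).image (fun i : ℕ => (i : ℝ))).powersetCard (k - 1)).image (fun S => {B | Homothetic (insert 0 S) B}) := by
    intro C hC
    obtain ⟨A, hA, rfl⟩ := mem_image.1 hC
    rw [mem_powersetCard] at hA
    have hne : A.Nonempty := card_pos.1 (by omega)
    have ha := A.min'_mem hne
    have hle : ∀ x ∈ A, A.min' hne ≤ x := fun x hx => A.min'_le x hx
    generalize A.min' hne = a at ha hle
    have h0 : (0 : ℝ) ∈ A.image (fun x => 1 * x + -a) := mem_image.2 ⟨a, ha, by ring⟩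
    have hh : Homothetic A (A.image (fun x => 1 * x + -a)) := ⟨1, -a, one_pos, rfl⟩
    refine mem_image.2 ⟨(A.image (fun x => 1 * x + -a)).erase 0, mem_powersetCard.2 ⟨?_, ?_⟩, ?_⟩
    · intro y hy
      obtain ⟨x, hx, rfl⟩ := mem_image.1 (mem_of_mem_erase hy)
      obtain ⟨i, hi, rfl⟩ := mem_image.1 (hA.1 hx)
      obtain ⟨j, -, rfl⟩ := mem_image.1 (hA.1 ha)
      have hij : j ≤ i := by exact_mod_cast hle _ hx
      refine mem_image.2 ⟨i - j, mem_range.2 (by have := mem_range.1 hi; omega), ?_⟩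
      rw [Nat.cast_sub hij]
      ring
    · rw [card_erase_of_mem h0, card_image_of_injective _ (fun x y h => by simpa using h), hA.2]
    · rw [insert_erase h0]
      ext B
      exact ⟨fun h => htrans hh h, fun h => htrans (hsymm hh) h⟩
  refine (card_le_card this).trans (card_image_le.trans ?_)
  rw [card_powersetCard, card_image_of_injective _ Nat.cast_injective, card_range]
  exact Nat.choose_le_pow _ _

theorem result (k : ℕ) (hk : 4 ≤ k) :
    ∃ c : ℝ, 0 < c ∧ ∀ n : ℕ, 2 * k ≤ n →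
      c * (n : ℝ) ^ (k - 1) ≤ f k n ∧ (f k n : ℝ) ≤ (n : ℝ) ^ (k - 1) := by
  refine ⟨1 / (128 * (2 ^ k * (k.factorial : ℝ)) ^ 2), by positivity, fun n hn => ?_⟩
  have hc : ((range n).image (fun i : ℕ => (i : ℝ))).card = n := by
    rw [card_image_of_injective _ Nat.cast_injective, card_range]
  constructor
  · obtain ⟨X, hX, h⟩ := Nat.sInf_mem (s := {m | ∃ X : Finset ℝ, X.card = n ∧ classes k X = m}) ⟨_, _, hc, rfl⟩
    have h1 := lower k hk X (by omega)
    rw [h, hX] at h1
    change _ ≤ (f k n : ℝ) * _ at h1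
    have hn0 : (0 : ℝ) < n := by exact_mod_cast (show 0 < n by omega)
    have h2 : (((n + 1 - k : ℕ) : ℝ) ^ k) / k.factorial ≤ n.choose k := Nat.pow_le_choose k n
    have h3 : (n : ℝ) / 2 ≤ ((n + 1 - k : ℕ) : ℝ) := by
      rw [div_le_iff₀ two_pos]
      exact_mod_cast (show n ≤ (n + 1 - k) * 2 by omega)
    have h4 : ((n : ℝ) / 2) ^ k / k.factorial ≤ n.choose k :=
      le_trans (div_le_div_of_nonneg_right (pow_le_pow_left₀ (by positivity) h3 k) (by positivity)) h2
    have h5 := (pow_le_pow_left₀ (by positivity) h4 2).trans h1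
    have e : (((n : ℝ) / 2) ^ k / k.factorial) ^ 2 =
        1 / (128 * (2 ^ k * (k.factorial : ℝ)) ^ 2) * (n : ℝ) ^ (k - 1) * (128 * (n : ℝ) ^ (k + 1)) := by
      have e1 : (n : ℝ) ^ (k - 1) * (n : ℝ) ^ (k + 1) = ((n : ℝ) ^ k) ^ 2 := by
        rw [← pow_add, ← pow_mul]
        congr 1
        omega
      have e2 : 1 / (128 * (2 ^ k * (k.factorial : ℝ)) ^ 2) * (n : ℝ) ^ (k - 1) * (128 * (n : ℝ) ^ (k + 1)) =
          ((n : ℝ) ^ (k - 1) * (n : ℝ) ^ (k + 1)) / (2 ^ k * (k.factorial : ℝ)) ^ 2 := by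
        field_simp
      rw [e2, e1, div_pow, div_pow]
      field_simp
    rw [e] at h5
    exact le_of_mul_le_mul_right h5 (by positivity)
  · have h1 : f k n ≤ classes k ((range n).image (fun i : ℕ => (i : ℝ))) := Nat.sInf_le ⟨_, hc, rfl⟩
    exact_mod_cast h1.trans (upper k n (by omega))

end Pool.Agent.Results.MP_9322ca_co.Order
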